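import Pool.Agent.Helper77.SGC.Goals

/-!
# Project SG, packet SGC-HOUS: houses from local bounds
-/

set_option autoImplicit false

namespace Pool.Agent.Helper24.SGC

open Pool.Agent.Helper77.SGC

/-- **HOUS.** -/
theorem hous : HOUS := by
  intro K _ _ B hB
  have hB0 : ∀ φ : K →+* ℂ, 0 ≤ B (NumberField.place φ) := fun φ =>
    zero_le_one.trans (hB _)
  have hs0 : 0 ≤ ∑ φ : K →+* ℂ, B (NumberField.place φ) := Finset.sum_nonneg fun φ _ => hB0 φ
  refine ⟨∑ φ : K →+* ℂ, B (NumberField.place φ) + 1, by linarith, ?_⟩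
  intro x k hx
  have hpos : 0 ≤ (∑ φ : K →+* ℂ, B (NumberField.place φ) + 1) ^ k := by positivity
  show ‖NumberField.canonicalEmbedding K x‖ ≤ _
  rw [pi_norm_le_iff_of_nonneg hpos]
  intro φ
  have h1 : ‖NumberField.canonicalEmbedding K x φ‖ = NumberField.place φ x := rfl
  rw [h1]
  refine (hx _).trans (pow_le_pow_left₀ (hB0 φ) ?_ k)
  have h2 : B (NumberField.place φ) ≤ ∑ φ : K →+* ℂ, B (NumberField.place φ) :=
    Finset.single_le_sum (f := fun φ : K →+* ℂ => B (NumberField.place φ)) (fun φ _ => hB0 φ)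
      (Finset.mem_univ φ)
  linarith

end Pool.Agent.Helper24.SGC
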